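import Pool.Agent.H43.MD.Pos

/-!
# CORE: the change of the generic functions at countably many coordinates

`i j` are the rows used by ONE in the inning `j`, `b` is a new board, `γ j k` is the Boolean value of:
the `j`-th move of TWO on the board `b` is `k`. It does not depend on the rows `i m` with `j < m`. The
value `Pay x y` of: the run with the moves `x`, `y` is in the payoff set, does not depend on any of
the rows `i m`.

Proof: let `q ≤ p`. Let `q'` be the restriction of `q` to the coordinates other than the `(i m, b)`. Decide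
successively, for all finite sequences `u` of length `j + 1` (there are countably many), the value
`τ u` of `γ j` below the condition extended by `(i m, b) ↦ u m` (`m ≤ j`), without using the coordinates
`(i m, b)`: this gives `r ≤ q'`. For every `x` the union of `r` and `(i m, b) ↦ x m` decides `γ j` to be
`τ (x 0, …, x j)` for all `j`. By the assumption no extension of this union is below
`Pay x (fun j => τ (x 0, …, x j))`, so the union is below its complement, and by the support property
`r` is below its complement. Finally `glue q r` is the condition wanted.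
-/

set_option autoImplicit false

namespace MD

open BV PK HM PM CN

variable {X : Type} {B : Type} [CompleteBooleanAlgebra B] {e : Cd X → B}

/-- the moves `τ (x 0), τ (x 0, x 1), …` -/
def ans (τ : List ℕ → ℕ) (x : ℕ → ℕ) (n : ℕ) : ℕ := τ (List.ofFn (fun i : Fin (n + 1) => x i))

open Classical in
/-- override the coordinates `c m` by `g m` -/
noncomputable def ovr (c : ℕ → X × R) (p : Cd X) (g : ℕ → Option ℕ) : Cd X :=
  ⟨fun z => if h : ∃ m, c m = z then g h.choose else p.1 z, by
    refine ((Set.countable_range c).union p.2).mono ?_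
    intro z hz
    simp only [Set.mem_ofPred_eq] at hz
    by_cases h : ∃ m, c m = z
    · exact Or.inl h
    · rw [dif_neg h] at hz
      exact Or.inr hz⟩

open Classical in
theorem ovr_on {c : ℕ → X × R} (hc : Function.Injective c) (p : Cd X) (g : ℕ → Option ℕ) (m : ℕ) :
    (ovr c p g).1 (c m) = g m := by
  have h : ∃ m', c m' = c m := ⟨m, rfl⟩
  show (if h : ∃ m', c m' = c m then g h.choose else p.1 (c m)) = _
  rw [dif_pos h, hc h.choose_spec]

open Classical in
theorem ovr_off {c : ℕ → X × R} (p : Cd X) (g : ℕ → Option ℕ) {z : X × R} (hz : ∀ m, c m ≠ z) :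
    (ovr c p g).1 z = p.1 z := by
  show (if h : ∃ m', c m' = z then g h.choose else p.1 z) = _
  rw [dif_neg]
  rintro ⟨m, hm⟩
  exact hz m hm

/-- to compare conditions -/
theorem le_ovr {c : ℕ → X × R} (hc : Function.Injective c) {q p : Cd X} {g : ℕ → Option ℕ}
    (h1 : ∀ m k, g m = some k → q.1 (c m) = some k)
    (h2 : ∀ z k, (∀ m, c m ≠ z) → p.1 z = some k → q.1 z = some k) : q ≤ ovr c p g := by
  intro z k hz
  by_cases h : ∃ m, c m = z
  · obtain ⟨m, rfl⟩ := h
    rw [ovr_on hc] at hz
    exact h1 m k hz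
  · have h' : ∀ m, c m ≠ z := fun m hm => h ⟨m, hm⟩
    rw [ovr_off _ _ h'] at hz
    exact h2 z k h' hz

theorem core_step (he : DenseEmb (Cd X) B e) {i : ℕ → X} (hi : Function.Injective i) (b : R)
    (p : Cd X) (hp : ∀ m, p.1 (i m, b) = none) (γ : ℕ → ℕ → B) (hγ : ∀ j, e p ≤ ⨆ k, γ j k)
    (hγs : ∀ j k, Su e {z | ∀ m, j < m → z ≠ i m} (γ j k)) (q : Cd X) (hqp : q ≤ p) (j : ℕ)
    (u : List ℕ) (hu : u.length = j + 1) :
    ∃ r, r ≤ q ∧ ∃ k, e (ovr (fun m => (i m, b)) r fun m => u[m]?) ≤ γ j k := by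
  set c : ℕ → X × R := fun m => (i m, b) with hc
  have hinj : Function.Injective c := fun m m' h => hi (Prod.ext_iff.1 h).1
  set w := ovr c q fun m => u[m]? with hw
  have hwp : w ≤ p := by
    intro z l hz
    by_cases h : ∃ m, c m = z
    · obtain ⟨m, rfl⟩ := h
      rw [hc] at hz
      rw [hp m] at hz
      exact absurd hz (by simp)
    · rw [hw, ovr_off _ _ fun m hm => h ⟨m, hm⟩]
      exact hqp _ _ hz
  obtain ⟨v, hv, k, hk⟩ := he.exists_le_of_le_iSup (p := w) (f := γ j)
    ((he.mono _ _ hwp).trans (hγ j))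
  have hk' := hγs j k v hk
  refine ⟨ovr c v fun m => q.1 (c m), ?_, k, le_trans (he.mono _ _ ?_) hk'⟩
  · intro z l hz
    by_cases h : ∃ m, c m = z
    · obtain ⟨m, rfl⟩ := h
      rw [ovr_on hinj]
      exact hz
    · have h' : ∀ m, c m ≠ z := fun m hm => h ⟨m, hm⟩
      rw [ovr_off _ _ h']
      refine hv z l ?_
      rw [hw, ovr_off _ _ h']
      exact hz
  · intro z l hz
    rw [rc_some] at hz
    obtain ⟨hz1, hz2⟩ := hz
    by_cases h : ∃ m, c m = z
    · obtain ⟨m, rfl⟩ := h
      rw [ovr_on hinj]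
      have hmj : m ≤ j := by
        by_contra hcon
        exact hz1 m (not_le.1 hcon) rfl
      have h1 : w.1 (c m) = some (u[m]'(by omega)) := by
        rw [hw, ovr_on hinj]
        exact List.getElem?_eq_getElem (by omega)
      have h2 := hv _ _ h1
      rw [hz2] at h2
      rw [h2]
      exact List.getElem?_eq_getElem (by omega)
    · have h' : ∀ m, c m ≠ z := fun m hm => h ⟨m, hm⟩
      rw [ovr_off _ _ h', ovr_off _ _ h']
      exact hz2

theorem core (he : DenseEmb (Cd X) B e) {i : ℕ → X} (hi : Function.Injective i) (b : R) (p : Cd X)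
    (hp : ∀ m, p.1 (i m, b) = none) (Pay : (ℕ → ℕ) → (ℕ → ℕ) → B)
    (hPay : ∀ x y, Su e {z | z ∉ Set.range i} (Pay x y)) (γ : ℕ → ℕ → B)
    (hγ : ∀ j, e p ≤ ⨆ k, γ j k) (hγs : ∀ j k, Su e {z | ∀ m, j < m → z ≠ i m} (γ j k))
    (H : ∀ q ≤ p, ∀ x y : ℕ → ℕ, (∀ m, q.1 (i m, b) = some (x m)) → (∀ m, e q ≤ γ m (y m)) →
      ¬ e q ≤ Pay x y) (q : Cd X) (hq : q ≤ p) :
    ∃ r, r ≤ q ∧ ∃ τ : List ℕ → ℕ, ∀ x, e r ≤ (Pay x (ans τ x))ᶜ := by
  set c : ℕ → X × R := fun m => (i m, b) with hc
  have hinj : Function.Injective c := fun m m' h => hi (Prod.ext_iff.1 h).1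
  obtain ⟨r, hr, h1⟩ := (sClosed X).dense' (κ := List ℕ) (p := q)
    (fun u r => ∃ k, e (ovr c r fun m => u[m]?) ≤ γ (u.length - 1) k ∨ u = []) (by
      rintro u q' r' hr' ⟨k, h | h⟩
      · refine ⟨k, Or.inl (le_trans (he.mono _ _ ?_) h)⟩
        refine le_ovr hinj (fun m l hm => ?_) fun z l hz hzl => ?_
        · rw [ovr_on hinj]
          exact hm
        · rw [ovr_off _ _ hz]
          exact hr' _ _ hzl
      · exact ⟨k, Or.inr h⟩) (by
      intro u q' hq'
      rcases Nat.eq_zero_or_pos u.length with h0 | h0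
      · exact ⟨q', le_rfl, 0, Or.inr (List.length_eq_zero_iff.1 h0)⟩
      · obtain ⟨r', hr', k, hk⟩ := core_step he hi b p hp γ hγ hγs q' (hq'.trans hq)
          (u.length - 1) u (by omega)
        exact ⟨r', hr', k, Or.inl hk⟩)
  choose τ hτ using h1
  refine ⟨r, hr, τ, fun x => ?_⟩
  set y := ans τ x with hy
  set rx := ovr c r fun m => some (x m) with hrx
  have hrxp : rx ≤ p := by
    intro z l hz
    by_cases h : ∃ m, c m = z
    · obtain ⟨m, rfl⟩ := h
      rw [hc] at hz
      rw [hp m] at hz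
      exact absurd hz (by simp)
    · rw [hrx, ovr_off _ _ fun m hm => h ⟨m, hm⟩]
      exact hr _ _ (hq _ _ hz)
  have hxm : ∀ m, rx.1 (c m) = some (x m) := fun m => ovr_on hinj _ _ m
  have hym : ∀ m, e rx ≤ γ m (y m) := by
    intro m
    have h2 := hτ (List.ofFn (fun a : Fin (m + 1) => x a))
    rcases h2 with h2 | h2
    · rw [List.length_ofFn, Nat.add_sub_cancel] at h2
      refine le_trans (he.mono _ _ ?_) h2
      refine le_ovr hinj (fun m' l hm => ?_) fun z l hz hzl => ?_
      · rw [hxm]
        rw [List.getElem?_ofFn] at hm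
        split_ifs at hm with h3
        exact hm
      · rw [hrx, ovr_off _ _ hz]
        exact hzl
    · have h3 := congrArg List.length h2
      rw [List.length_ofFn] at h3
      exact absurd h3 (by simp)
  have hc1 : e rx ≤ (Pay x y)ᶜ := by
    rw [le_compl_iff he]
    intro q' hq'
    exact H q' (hq'.trans hrxp) x y (fun m => hq' _ _ (hxm m))
      fun m => (he.mono _ _ hq').trans (hym m)
  refine le_trans (he.mono _ _ ?_) ((hPay x y).compl he rx hc1)
  intro z l hz
  rw [rc_some] at hz
  have h' : ∀ m, c m ≠ z := by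
    rintro m rfl
    exact hz.1 ⟨m, rfl⟩
  rw [hrx, ovr_off _ _ h'] at hz
  exact hz.2

end MD
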