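import Pool.Agent.H43.MD.Pos

/-!
# CTR: the contract between the Boolean part and the interface part

`R = ℕ → Bool` are the boards.
-/

set_option autoImplicit false

namespace MD

open BV PK HM PM CN

variable {B : Type} [CompleteBooleanAlgebra B]

/-- `f` is the name of a natural number -/
def IsN (f : ℕ → B) : Prop := (∀ a b, a ≠ b → f a ⊓ f b = ⊥) ∧ (⨆ a, f a) = ⊤

/-- `φ` is the table of a sequence of moves -/
def IsT (φ : ℕ → R → ℕ → B) : Prop := ∀ n x, IsN (φ n x)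

/-- the moves before `n` agree -/
def Eqv (n : ℕ) (φ φ' : ℕ → R → ℕ → B) : B :=
  ⨅ m : Fin n, ⨅ x, ⨅ a, (φ m x a ⇨ φ' m x a) ⊓ (φ' m x a ⇨ φ m x a)

/-- Boolean value of: on the board `x` the moves of ONE (table `ψ`) are `u`, the moves of TWO (table
`φ`) are `v` -/
def Rn (φ ψ : ℕ → R → ℕ → B) (x : R) (u v : ℕ → ℕ) : B := ⨅ n, ψ n x (u n) ⊓ φ n x (v n)

/-- the contract -/
structure Ctr (P : Type) [Preorder P] (B : Type) [CompleteBooleanAlgebra B] (e : P → B) : Prop where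
  emb : DenseEmb P B e
  closed : SClosed P
  det : ∀ s : (ℕ → ℕ) → (ℕ → ℕ) → B, ∃ Sg : (ℕ → R → ℕ → B) → (ℕ → R → ℕ → B),
    (∀ φ, IsT φ → IsT (Sg φ)) ∧
    (∀ φ φ', IsT φ → IsT φ' → ∀ n x a, Eqv n φ φ' ⊓ Sg φ n x a ≤ Sg φ' n x a) ∧
    ∀ φ, IsT φ → (⨅ x, ⨅ u, ⨅ v, (Rn φ (Sg φ) x u v ⊓ s u v)ᶜ) ≤
      ⨆ t : List ℕ → ℕ, ⨅ u : ℕ → ℕ, (s u (fun n => t (List.ofFn (fun i : Fin (n + 1) => u i))))ᶜ

end MD
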