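import Mathlib

/-!
# IDX: the index of a history

`L = (#X).ord.ToType`, `ν : T → L` injective, `rk η` is the maximum of the `ν v` for `v ∈ η` (and of a
fixed element). For every `a : L` the union of `s0` and of the `sp v` with `ν v ≤ a` has fewer than `#X`
elements. Take an injection `c : List T × X → X` (`#(List T) ≤ #X`, `X` infinite) and for every `η` an
element `i η` of the form `c (η, x)` outside of this set for `a = rk η`.
-/

set_option autoImplicit false

namespace MD

open Cardinal

/-- the maximum of the `ν v`, `v ∈ η`, and of `a` -/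
def mx {T L : Type} [LinearOrder L] (ν : T → L) (a : L) : List T → L
  | [] => a
  | v :: η => max (ν v) (mx ν a η)

theorem le_mx {T L : Type} [LinearOrder L] (ν : T → L) (a : L) (η : List T) : a ≤ mx ν a η := by
  induction η with
  | nil => exact le_rfl
  | cons v η ih => exact ih.trans (le_max_right _ _)

theorem mem_le_mx {T L : Type} [LinearOrder L] (ν : T → L) (a : L) (η : List T) :
    ∀ v ∈ η, ν v ≤ mx ν a η := by
  induction η with
  | nil => simp
  | cons w η ih =>
    intro v hv
    rcases List.mem_cons.1 hv with rfl | hv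
    · exact le_max_left _ _
    · exact (ih v hv).trans (le_max_right _ _)

theorem mx_take {T L : Type} [LinearOrder L] (ν : T → L) (a : L) (η : List T) :
    ∀ n, mx ν a (η.take n) ≤ mx ν a η := by
  induction η with
  | nil => simp
  | cons v η ih =>
    intro n
    cases n with
    | zero => exact le_mx ν a _
    | succ n => exact max_le_max le_rfl (ih n)

theorem exists_idx {T X : Type} (hc : continuum < #X) (hT : #T ≤ #X) (sp : T → Set X)
    (hsp : ∀ v, #(sp v) ≤ continuum) (s0 : Set X) (hs0 : #s0 ≤ continuum) :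
    ∃ (L : Type) (_ : LinearOrder L) (_ : WellFoundedLT L) (rk : List T → L) (i : List T → X),
      Function.Injective i ∧ (∀ η, i η ∉ s0) ∧ (∀ η n, rk (η.take n) ≤ rk η) ∧
      ∀ η η', rk η ≤ rk η' → ∀ v ∈ η, i η' ∉ sp v := by
  have hX : ℵ₀ ≤ #X := Cardinal.aleph0_le_continuum.trans hc.le
  have hL : #(#X).ord.ToType = #X := Cardinal.mk_ord_toType _
  have hne : Nonempty (#X).ord.ToType := by
    rw [← Cardinal.mk_ne_zero_iff, hL]
    exact (Cardinal.aleph0_pos.trans_le hX).ne'
  obtain ⟨ν⟩ : Nonempty (T ↪ (#X).ord.ToType) := (Cardinal.le_def _ _).1 (hT.trans hL.ge)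
  obtain ⟨c⟩ : Nonempty (List T × X ↪ X) := by
    refine (Cardinal.le_def _ _).1 ?_
    rw [Cardinal.mk_prod, Cardinal.lift_id, Cardinal.lift_id]
    exact Cardinal.mul_le_of_le hX ((Cardinal.mk_list_le_max T).trans (max_le hX hT)) le_rfl
  let a0 : (#X).ord.ToType := Classical.arbitrary _
  let rk : List T → (#X).ord.ToType := mx ν a0
  let S : (#X).ord.ToType → Set X := fun a => s0 ∪ ⋃ v : {v : T // ν v ≤ a}, sp v.1
  have hS : ∀ a, #(S a) < #X := by
    intro a
    refine (Cardinal.mk_union_le _ _).trans_lt ?_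
    refine Cardinal.add_lt_of_lt hX (hs0.trans_lt hc) ?_
    refine (Cardinal.mk_iUnion_le _).trans_lt ?_
    have h1 : #{v : T // ν v ≤ a} < #X := by
      have h2 : #{v : T // ν v ≤ a} ≤ #(Set.Iic a) := Cardinal.mk_le_of_injective
        (f := fun v : {v : T // ν v ≤ a} => (⟨ν v.1, v.2⟩ : Set.Iic a)) fun v w h =>
          Subtype.ext (ν.injective (congrArg Subtype.val h))
      refine h2.trans_lt ?_
      have h3 : Set.Iic a = insert a (Set.Iio a) := by
        ext x
        simp [le_iff_eq_or_lt]
      rw [h3]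
      refine (Cardinal.mk_insert_le).trans_lt ?_
      refine Cardinal.add_lt_of_lt hX (Cardinal.mk_Iio_ord_toType a) ?_
      exact Cardinal.one_lt_aleph0.trans_le hX
    refine lt_of_le_of_lt (mul_le_mul' le_rfl (ciSup_le' fun v => hsp v.1)) ?_
    exact Cardinal.mul_lt_of_lt hX h1 hc
  have hi : ∀ η : List T, ∃ x : X, c (η, x) ∉ S (rk η) := by
    intro η
    by_contra hcon
    push Not at hcon
    have h3 : #X ≤ #(S (rk η)) := Cardinal.mk_le_of_injective
      (f := fun x : X => (⟨c (η, x), hcon x⟩ : S (rk η))) fun x y hxy => by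
        have h4 : c (η, x) = c (η, y) := congrArg Subtype.val hxy
        exact congrArg Prod.snd (c.injective h4)
    exact absurd h3 (not_le.2 (hS _))
  choose x hx using hi
  refine ⟨(#X).ord.ToType, inferInstance, inferInstance, rk, fun η => c (η, x η), ?_, ?_, ?_, ?_⟩
  · intro η η' h
    exact congrArg Prod.fst (c.injective h)
  · intro η hη
    exact hx η (Or.inl hη)
  · exact fun η n => mx_take ν a0 η n
  · intro η η' hηη' v hv hvx
    refine hx η' (Or.inr (Set.mem_iUnion.2 ⟨⟨v, ?_⟩, hvx⟩))
    exact (mem_le_mx ν a0 η v hv).trans hηη'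

end MD
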