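import Pool.Agent.H43.MD.Pos

/-!
# WCL: every element of `B` has a support of size at most the continuum

There is `J ⊆ X × R` with `#J ≤ c` such that for every condition `q` with domain contained in `J`, which
has an extension below `bᶜ`, there is such an extension with domain contained in `J` (`exists_closed`).
Then `e p ≤ b` implies `e (rc J p) ≤ b`: otherwise `rc J p` has an extension below `bᶜ` with domain
contained in `J`, and this is compatible with `p`. So `J` (its projection to the rows) supports `b`, and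
`b` is the supremum of the `e q`, `q` with domain contained in `J`, and there are at most `c` of these.
-/

set_option autoImplicit false

namespace MD

open BV PK HM PM CN Cardinal

variable {X : Type}

/-- the arities of the operations -/
def Ar (T : Type) : Option (T × ℕ) → Type
  | none => Empty
  | some _ => ℕ

/-- the value of a term -/
noncomputable def dec {Y T : Type} [Nonempty Y] (Φ : T → (ℕ → Y) → ℕ → Y) : WType (Ar T) → Y
  | ⟨none, _⟩ => Classical.arbitrary Y
  | ⟨some (t, n), s⟩ => Φ t (fun k => dec Φ (s k)) n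

theorem mk_term_le {T : Type} (hT : #T ≤ continuum) : #(WType (Ar T)) ≤ continuum := by
  refine WType.cardinalMk_le_of_le' ?_
  have h1 : ∀ a : Option (T × ℕ), continuum ^ Cardinal.lift.{0} #(Ar T a) ≤ continuum := by
    intro a
    rw [Cardinal.lift_id]
    rcases a with _ | a
    · show continuum ^ #Empty ≤ continuum
      simp only [Cardinal.mk_eq_zero, Cardinal.power_zero]
      exact Cardinal.one_le_aleph0.trans Cardinal.aleph0_le_continuum
    · show continuum ^ #ℕ ≤ continuum
      rw [Cardinal.mk_nat, Cardinal.continuum_power_aleph0]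
  refine (Cardinal.sum_le_sum _ _ h1).trans ?_
  rw [Cardinal.sum_const', Cardinal.mk_option, Cardinal.mk_prod, Cardinal.lift_id, Cardinal.lift_id,
    Cardinal.mk_nat]
  have h2 : #T * ℵ₀ + 1 ≤ continuum := by
    refine Cardinal.add_le_of_le Cardinal.aleph0_le_continuum ?_
      (Cardinal.one_le_aleph0.trans Cardinal.aleph0_le_continuum)
    exact Cardinal.mul_le_of_le Cardinal.aleph0_le_continuum hT Cardinal.aleph0_le_continuum
  exact Cardinal.mul_le_of_le Cardinal.aleph0_le_continuum h2 le_rfl

/-- closure under operations of countable arity: `Φ t s n` for `t : T`, `#T ≤ c` -/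
theorem exists_closed {Y T : Type} [Nonempty Y] (hT : #T ≤ continuum) (Φ : T → (ℕ → Y) → ℕ → Y) :
    ∃ J : Set Y, J.Nonempty ∧ #J ≤ continuum ∧ ∀ t (s : ℕ → Y), (∀ n, s n ∈ J) → ∀ n, Φ t s n ∈ J := by
  refine ⟨Set.range (dec Φ), ?_, Cardinal.mk_range_le.trans (mk_term_le hT), ?_⟩
  · exact ⟨dec Φ ⟨none, Empty.elim⟩, Set.mem_range_self _⟩
  · intro t s hs n
    choose w hw using hs
    refine ⟨⟨some (t, n), w⟩, ?_⟩
    have h1 : (fun k => dec Φ (w k)) = s := funext hw
    show Φ t (fun k => dec Φ (w k)) n = Φ t s n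
    rw [h1]

open Classical in
/-- the condition with the values `t n` at the coordinates `s n` -/
noncomputable def ofSeq (t : ℕ → Option ℕ) (s : ℕ → X × R) : Cd X :=
  ⟨fun z => if h : ∃ n, s n = z then t (Nat.find h) else none, by
    refine (Set.countable_range s).mono ?_
    intro z hz
    simp only [Set.mem_ofPred_eq] at hz
    by_cases h : ∃ n, s n = z
    · exact h
    · rw [dif_neg h] at hz
      exact absurd rfl hz⟩

/-- the domain of `q` is contained in `J` -/
def Dom (J : Set (X × R)) (q : Cd X) : Prop := ∀ z, q.1 z ≠ none → z ∈ J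

theorem exists_ofSeq {J : Set (X × R)} (hJ : J.Nonempty) {q : Cd X} (hq : Dom J q) :
    ∃ (t : ℕ → Option ℕ) (s : ℕ → X × R), (∀ n, s n ∈ J) ∧ ofSeq t s = q := by
  classical
  obtain ⟨s, hs⟩ : ∃ s : ℕ → X × R, (∀ n, s n ∈ J) ∧ ∀ z, q.1 z ≠ none → ∃ n, s n = z := by
    rcases Set.eq_empty_or_nonempty {z | q.1 z ≠ none} with h0 | h0
    · obtain ⟨z0, hz0⟩ := hJ
      refine ⟨fun _ => z0, fun _ => hz0, fun z hz => ?_⟩
      have h1 : z ∈ {z | q.1 z ≠ none} := hz
      rw [h0] at h1
      exact absurd h1 (Set.notMem_empty z)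
    · obtain ⟨s, hs⟩ := q.2.exists_eq_range h0
      refine ⟨s, fun n => hq _ ?_, fun z hz => ?_⟩
      · have h1 : s n ∈ {z | q.1 z ≠ none} := by rw [hs]; exact Set.mem_range_self n
        exact h1
      · have h1 : z ∈ {z | q.1 z ≠ none} := hz
        rw [hs] at h1
        exact h1
  refine ⟨fun n => q.1 (s n), s, hs.1, ?_⟩
  apply Subtype.ext
  funext z
  show (if h : ∃ n, s n = z then q.1 (s (Nat.find h)) else none) = q.1 z
  by_cases h : ∃ n, s n = z
  · rw [dif_pos h, Nat.find_spec h]
  · rw [dif_neg h]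
    by_contra h1
    exact h (hs.2 z fun h2 => h1 h2.symm)

variable {B : Type} [CompleteBooleanAlgebra B] {e : Cd X → B}

open Classical in
/-- an extension below `bᶜ` if there is one -/
noncomputable def wit (e : Cd X → B) (b : B) (q : Cd X) : Cd X :=
  if h : ∃ r ≤ q, e r ≤ bᶜ then h.choose else q

theorem wit_spec (b : B) {q : Cd X} (h : ∃ r ≤ q, e r ≤ bᶜ) : wit e b q ≤ q ∧ e (wit e b q) ≤ bᶜ := by
  unfold wit
  rw [dif_pos h]
  exact h.choose_spec

theorem exists_J [Nonempty X] (e : Cd X → B) (b : B) :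
    ∃ J : Set (X × R), J.Nonempty ∧ #J ≤ continuum ∧ ∀ q, Dom J q → Dom J (wit e b q) := by
  classical
  have hne : Nonempty (X × R) := ⟨(Classical.arbitrary X, fun _ => default)⟩
  have hen : ∀ q : Cd X, ∃ s : ℕ → X × R, ∀ z, q.1 z ≠ none → ∃ n, s n = z := by
    intro q
    rcases Set.eq_empty_or_nonempty {z | q.1 z ≠ none} with h0 | h0
    · refine ⟨fun _ => Classical.arbitrary _, fun z hz => ?_⟩
      have h1 : z ∈ {z | q.1 z ≠ none} := hz
      rw [h0] at h1
      exact absurd h1 (Set.notMem_empty z)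
    · obtain ⟨s, hs⟩ := q.2.exists_eq_range h0
      refine ⟨s, fun z hz => ?_⟩
      have h1 : z ∈ {z | q.1 z ≠ none} := hz
      rw [hs] at h1
      exact h1
  choose en hen using hen
  have hT : #(ℕ → Option ℕ) ≤ continuum := by
    rw [← Cardinal.power_def]
    simp
  obtain ⟨J, hJ0, hJ1, hJ2⟩ := exists_closed (Y := X × R) (T := ℕ → Option ℕ) hT
    (fun t s n => if (wit e b (ofSeq t s)).1 (en (wit e b (ofSeq t s)) n) ≠ none then
      en (wit e b (ofSeq t s)) n else s 0)
  refine ⟨J, hJ0, hJ1, fun q hq z hz => ?_⟩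
  obtain ⟨t, s, hs, rfl⟩ := exists_ofSeq hJ0 hq
  obtain ⟨n, hn⟩ := hen _ z hz
  have h1 := hJ2 t s hs n
  rw [hn, if_pos hz] at h1
  exact h1

theorem rc_Dom (J : Set (X × R)) (p : Cd X) : Dom J (rc J p) := by
  intro z hz
  by_contra h
  exact hz (rc_none h)

theorem le_of_J (he : DenseEmb (Cd X) B e) {b : B} {J : Set (X × R)}
    (hJ : ∀ q, Dom J q → Dom J (wit e b q)) {p : Cd X} (hp : e p ≤ b) : e (rc J p) ≤ b := by
  by_contra hcon
  have h0 := wit_spec b ((not_le_iff he).1 hcon)
  have h1 := hJ _ (rc_Dom J p)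
  have h2 : glue p (wit e b (rc J p)) ≤ wit e b (rc J p) := by
    refine glue_le_right fun z k k' hk hk' => ?_
    have h3 : z ∈ J := h1 z (by rw [hk']; simp)
    have h4 := h0.1 z k (rc_some.2 ⟨h3, hk⟩)
    rw [h4] at hk'
    exact Option.some.inj hk'
  apply he.ne_bot (glue p (wit e b (rc J p)))
  rw [← le_bot_iff, ← inf_compl_eq_bot (a := b)]
  exact le_inf ((he.mono _ _ (glue_le_left _ _)).trans hp) ((he.mono _ _ h2).trans h0.2)

/-- every element of `B` is the supremum of at most `c` conditions and has a support of size at most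
`c` -/
theorem exists_anti (he : DenseEmb (Cd X) B e) (b : B) :
    ∃ (S : Set X) (φ : R → Option (Cd X)), #S ≤ continuum ∧ Su e S b ∧
      b = ⨆ r, (φ r).elim ⊥ e := by
  classical
  rcases isEmpty_or_nonempty X with hX | hX
  · have hall : ∀ p : Cd X, p = emp X := by
      intro p
      apply Subtype.ext
      funext z
      exact (IsEmpty.false z.1).elim
    refine ⟨∅, fun _ => if e (emp X) ≤ b then some (emp X) else none, by simp, ?_, ?_⟩
    · intro p hp
      rw [hall p] at hp
      rwa [hall (rc _ p)]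
    · apply le_antisymm
      · refine le_of_dense he fun q hq => ⟨q, le_rfl, ?_⟩
        rw [hall q] at hq ⊢
        refine le_trans ?_ (le_iSup _ (fun _ => default))
        rw [if_pos hq]
        exact le_rfl
      · refine iSup_le fun _ => ?_
        by_cases h : e (emp X) ≤ b
        · rw [if_pos h]
          exact h
        · rw [if_neg h]
          exact bot_le
  obtain ⟨J, hJ0, hJ1, hJ2⟩ := exists_J e b
  have hle : ∀ p, e p ≤ b → e (rc J p) ≤ b := fun p hp => le_of_J he hJ2 hp
  let Q : Set (Cd X) := {q | Dom J q ∧ e q ≤ b}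
  have hQ : #Q ≤ #R := by
    have h1 : #Q ≤ #((ℕ → Option ℕ) × (ℕ → J)) := by
      have h2 : ∀ q : Q, ∃ z : (ℕ → Option ℕ) × (ℕ → J), ofSeq z.1 (fun n => (z.2 n).1) = q.1 := by
        rintro ⟨q, hq1, hq2⟩
        obtain ⟨t, s, hs, h⟩ := exists_ofSeq hJ0 hq1
        exact ⟨(t, fun n => ⟨s n, hs n⟩), h⟩
      choose g hg using h2
      refine Cardinal.mk_le_of_injective (f := g) fun q q' h => Subtype.ext ?_
      rw [← hg q, ← hg q', h]
    refine h1.trans ?_
    have h3 : #R = continuum := by
      show #(ℕ → Bool) = continuum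
      rw [← Cardinal.power_def]
      simp
    rw [h3, Cardinal.mk_prod, Cardinal.lift_id, Cardinal.lift_id]
    refine Cardinal.mul_le_of_le Cardinal.aleph0_le_continuum ?_ ?_
    · rw [← Cardinal.power_def]
      simp
    · rw [← Cardinal.power_def, Cardinal.mk_nat]
      calc #J ^ ℵ₀ ≤ continuum ^ ℵ₀ := Cardinal.power_le_power_right hJ1
        _ = continuum := Cardinal.continuum_power_aleph0
  obtain ⟨i⟩ := (Cardinal.le_def _ _).1 hQ
  refine ⟨Prod.fst '' J, fun r => if h : ∃ q : Q, i q = r then some h.choose.1 else none,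
    Cardinal.mk_image_le.trans hJ1, ?_, ?_⟩
  · intro p hp
    have h1 : J ⊆ rows (Prod.fst '' J) := fun z hz => ⟨z, hz, rfl⟩
    exact (he.mono _ _ (rc_anti h1 p)).trans (hle p hp)
  · apply le_antisymm
    · refine le_of_dense he fun q hq => ⟨q, le_rfl, ?_⟩
      have h1 : rc J q ∈ Q := ⟨rc_Dom J q, hle q hq⟩
      have h2 : ∃ q' : Q, i q' = i ⟨_, h1⟩ := ⟨_, rfl⟩
      refine le_trans ?_ (le_iSup _ (i ⟨_, h1⟩))
      beta_reduce
      rw [dif_pos h2, i.injective h2.choose_spec]
      exact he.mono _ _ (le_rc J q)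
    · refine iSup_le fun r => ?_
      beta_reduce
      by_cases h : ∃ q : Q, i q = r
      · rw [dif_pos h]
        exact h.choose.2.2
      · rw [dif_neg h]
        exact bot_le

theorem exists_su (he : DenseEmb (Cd X) B e) (b : B) : ∃ S : Set X, #S ≤ continuum ∧ Su e S b := by
  obtain ⟨S, φ, h1, h2, -⟩ := exists_anti he b
  exact ⟨S, h1, h2⟩

theorem continuum_le_of_power {l : Cardinal.{0}} (hl0 : ℵ₀ ≤ l) (hl : l ^ continuum = l) :
    continuum ≤ l := by
  have h1 : (2 : Cardinal) ≤ l := (Cardinal.nat_lt_aleph0 2).le.trans hl0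
  calc continuum ≤ 2 ^ continuum := (Cardinal.cantor _).le
    _ ≤ l ^ continuum := Cardinal.power_le_power_right h1
    _ = l := hl

/-- the number of the conditions -/
theorem card_cd_le {l : Cardinal.{0}} (hX : #X ≤ l) (hl0 : ℵ₀ ≤ l)
    (hl : l ^ continuum = l) : #(Cd X) ≤ l := by
  classical
  have hcl := continuum_le_of_power hl0 hl
  have h1 : #(Cd X) ≤ #((ℕ → Option ℕ) × (ℕ → X × R)) + 1 := by
    rcases isEmpty_or_nonempty X with hX | hX
    · have hall : ∀ p : Cd X, p = emp X := by
        intro p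
        apply Subtype.ext
        funext z
        exact (IsEmpty.false z.1).elim
      have h2 : #(Cd X) ≤ 1 := Cardinal.le_one_iff_subsingleton.2
        ⟨fun a b => (hall a).trans (hall b).symm⟩
      exact h2.trans (self_le_add_left _ _)
    · refine le_trans ?_ (self_le_add_right _ _)
      refine Cardinal.mk_le_of_surjective (f := fun z : (ℕ → Option ℕ) × (ℕ → X × R) =>
        ofSeq z.1 z.2) fun q => ?_
      obtain ⟨t, s, -, h⟩ := exists_ofSeq (J := Set.univ)
        ⟨(Classical.arbitrary X, fun _ => default), trivial⟩ (q := q) fun _ _ => trivial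
      exact ⟨(t, s), h⟩
  have hlω : l ^ ℵ₀ ≤ l := by
    calc l ^ ℵ₀ ≤ l ^ continuum :=
          Cardinal.power_le_power_left (by
            intro h0
            rw [h0] at hl0
            exact absurd hl0 (not_le.2 Cardinal.aleph0_pos)) Cardinal.aleph0_le_continuum
      _ = l := hl
  have hR : #R = continuum := by
    show #(ℕ → Bool) = continuum
    rw [← Cardinal.power_def]
    simp
  refine h1.trans (Cardinal.add_le_of_le hl0 ?_ (Cardinal.one_le_aleph0.trans hl0))
  rw [Cardinal.mk_prod, Cardinal.lift_id, Cardinal.lift_id]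
  refine Cardinal.mul_le_of_le hl0 ?_ ?_
  · refine le_trans ?_ hcl
    rw [← Cardinal.power_def]
    simp
  · rw [← Cardinal.power_def, Cardinal.mk_nat]
    refine le_trans (Cardinal.power_le_power_right ?_) hlω
    rw [Cardinal.mk_prod, Cardinal.lift_id, Cardinal.lift_id, hR]
    exact Cardinal.mul_le_of_le hl0 hX hcl

/-- the size of `B` -/
theorem card_le (he : DenseEmb (Cd X) B e) {l : Cardinal.{0}} (hX : #X ≤ l) (hl0 : ℵ₀ ≤ l)
    (hl : l ^ continuum = l) : #B ≤ l := by
  have h1 : ∀ b : B, ∃ φ : R → Option (Cd X), b = ⨆ r, (φ r).elim ⊥ e := fun b => by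
    obtain ⟨S, φ, -, -, h⟩ := exists_anti he b
    exact ⟨φ, h⟩
  choose φ hφ using h1
  have h2 : #B ≤ #(R → Option (Cd X)) := Cardinal.mk_le_of_injective (f := φ) fun b b' h => by
    rw [hφ b, hφ b', h]
  have hR : #R = continuum := by
    show #(ℕ → Bool) = continuum
    rw [← Cardinal.power_def]
    simp
  refine h2.trans ?_
  rw [← Cardinal.power_def, hR]
  calc #(Option (Cd X)) ^ continuum ≤ l ^ continuum := by
        refine Cardinal.power_le_power_right ?_
        rw [Cardinal.mk_option]
        exact Cardinal.add_le_of_le hl0 (card_cd_le hX hl0 hl) (Cardinal.one_le_aleph0.trans hl0)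
    _ = l := hl

end MD
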