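import Pool.Agent.H43.MD.Ctr
import Pool.Agent.H43.MD.Core
import Pool.Agent.H43.MD.Wcl
import Pool.Agent.H43.MD.Idx

/-!
# DET: the Boolean part of the determined half
-/

set_option autoImplicit false
set_option linter.unusedSectionVars false

namespace MD

open BV PK HM PM CN Cardinal

section Alg

variable {B : Type} [CompleteBooleanAlgebra B]

/-- tables of moves -/
abbrev Tb (B : Type) : Type := R → ℕ → B

/-- Boolean value of an equivalence -/
def bi (a b : B) : B := (a ⇨ b) ⊓ (b ⇨ a)

theorem le_bi {a b c : B} : c ≤ bi a b ↔ c ⊓ a ≤ b ∧ c ⊓ b ≤ a := by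
  unfold bi
  rw [le_inf_iff, le_himp_iff, le_himp_iff]

theorem bi_refl (a : B) : bi a a = ⊤ := by
  unfold bi
  rw [himp_self, inf_top_eq]

theorem bi_symm (a b : B) : bi a b = bi b a := inf_comm _ _

theorem bi_app (a b : B) : bi a b ⊓ a ≤ b := (le_bi.1 le_rfl).1

theorem bi_trans (a b c : B) : bi a b ⊓ bi b c ≤ bi a c := by
  rw [le_bi]
  constructor
  · refine le_trans (le_inf (inf_le_left.trans inf_le_right) ?_) (bi_app b c)
    exact le_trans (le_inf (inf_le_left.trans inf_le_left) inf_le_right) (bi_app a b)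
  · rw [bi_symm a b, bi_symm b c]
    refine le_trans (le_inf (inf_le_left.trans inf_le_left) ?_) (bi_app b a)
    exact le_trans (le_inf (inf_le_left.trans inf_le_right) inf_le_right) (bi_app c b)

theorem le_eqv {n : ℕ} {φ φ' : ℕ → R → ℕ → B} {c : B} :
    c ≤ Eqv n φ φ' ↔ ∀ m < n, ∀ x a, c ≤ bi (φ m x a) (φ' m x a) := by
  unfold Eqv bi
  simp only [le_iInf_iff]
  exact ⟨fun h m hm => h ⟨m, hm⟩, fun h m => h m.1 m.2⟩

theorem eqv_refl (n : ℕ) (φ : ℕ → R → ℕ → B) : Eqv n φ φ = ⊤ := by
  rw [eq_top_iff, le_eqv]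
  intro m _ x a
  rw [bi_refl]

theorem eqv_symm (n : ℕ) (φ φ' : ℕ → R → ℕ → B) : Eqv n φ φ' = Eqv n φ' φ := by
  unfold Eqv
  simp only [inf_comm]

theorem eqv_trans (n : ℕ) (φ φ' φ'' : ℕ → R → ℕ → B) :
    Eqv n φ φ' ⊓ Eqv n φ' φ'' ≤ Eqv n φ φ'' := by
  rw [le_eqv]
  intro m hm x a
  refine le_trans (inf_le_inf ?_ ?_) (bi_trans (φ m x a) (φ' m x a) (φ'' m x a))
  · exact le_eqv.1 le_rfl m hm x a
  · exact le_eqv.1 le_rfl m hm x a

/-- the play of a list -/
def tp (l : List (Tb B)) : ℕ → R → ℕ → B := fun m => l.getD m fun _ _ => ⊥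

/-- Boolean value of the equality of lists -/
noncomputable def El (l η : List (Tb B)) : B :=
  if l.length = η.length then Eqv l.length (tp l) (tp η) else ⊥

theorem El_refl (l : List (Tb B)) : El l l = ⊤ := by
  unfold El
  rw [if_pos rfl, eqv_refl]

theorem El_symm (l η : List (Tb B)) : El l η = El η l := by
  unfold El
  by_cases h : l.length = η.length
  · rw [if_pos h, if_pos h.symm, eqv_symm, h]
  · rw [if_neg h, if_neg (Ne.symm h)]

theorem El_trans (l l' l'' : List (Tb B)) : El l l' ⊓ El l' l'' ≤ El l l'' := by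
  unfold El
  by_cases h : l.length = l'.length
  · by_cases h' : l'.length = l''.length
    · rw [if_pos h, if_pos h', if_pos (h.trans h'), h]
      exact eqv_trans _ _ _ _
    · rw [if_neg h', inf_bot_eq]
      exact bot_le
  · rw [if_neg h, bot_inf_eq]
    exact bot_le

theorem tp_take (l : List (Tb B)) (n m : ℕ) (hm : m < n) : tp (l.take n) m = tp l m := by
  unfold tp
  rw [List.getD_eq_getElem?_getD, List.getD_eq_getElem?_getD, List.getElem?_take, if_pos hm]

theorem El_take (l η : List (Tb B)) (n : ℕ) : El l η ≤ El (l.take n) (η.take n) := by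
  unfold El
  by_cases h : l.length = η.length
  · rw [if_pos h, if_pos (by rw [List.length_take, List.length_take, h]), le_eqv]
    intro m hm x a
    rw [List.length_take] at hm
    rw [tp_take _ _ _ (lt_of_lt_of_le hm (min_le_left _ _)),
      tp_take _ _ _ (lt_of_lt_of_le hm (min_le_left _ _))]
    exact le_eqv.1 le_rfl m (lt_of_lt_of_le hm (min_le_right _ _)) x a
  · rw [if_neg h]
    exact bot_le

/-- the first moves of a play -/
def lp (φ : ℕ → R → ℕ → B) (n : ℕ) : List (Tb B) := (List.range n).map φ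

theorem length_lp (φ : ℕ → R → ℕ → B) (n : ℕ) : (lp φ n).length = n := by
  unfold lp
  rw [List.length_map, List.length_range]

theorem tp_lp (φ : ℕ → R → ℕ → B) {n m : ℕ} (hm : m < n) : tp (lp φ n) m = φ m := by
  unfold tp lp
  rw [List.getD_eq_getElem _ _ (by rw [List.length_map, List.length_range]; exact hm)]
  simp

theorem lp_take (φ : ℕ → R → ℕ → B) {n m : ℕ} (hm : n ≤ m) : (lp φ m).take n = lp φ n := by
  unfold lp
  rw [← List.map_take, List.take_range, min_eq_left hm]

theorem El_lp (φ φ' : ℕ → R → ℕ → B) (n : ℕ) : Eqv n φ φ' ≤ El (lp φ n) (lp φ' n) := by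
  unfold El
  rw [if_pos (by rw [length_lp, length_lp]), length_lp, le_eqv]
  intro m hm x a
  rw [tp_lp φ hm, tp_lp φ' hm]
  exact le_eqv.1 le_rfl m hm x a

variable (rel : List (Tb B) → List (Tb B) → Prop)

/-- Boolean value of: `η` is the least list equal to `l` -/
noncomputable def lst (l η : List (Tb B)) : B := El l η ⊓ (⨆ η' : {η' // rel η' η}, El l η'.1)ᶜ

variable {rel}

theorem lst_le_compl {l η η' : List (Tb B)} (h : rel η' η) : lst rel l η ≤ (El l η')ᶜ := by
  refine inf_le_right.trans (compl_le_compl ?_)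
  exact le_iSup (fun η' : {η' // rel η' η} => El l η'.1) ⟨η', h⟩

theorem lst_disj (htri : ∀ a b, a ≠ b → rel a b ∨ rel b a) (l : List (Tb B)) {η η' : List (Tb B)}
    (h : η ≠ η') : lst rel l η ⊓ lst rel l η' = ⊥ := by
  rw [eq_bot_iff]
  rcases htri _ _ h with h1 | h1
  · calc lst rel l η ⊓ lst rel l η' ≤ El l η ⊓ (El l η)ᶜ :=
          inf_le_inf inf_le_left (lst_le_compl h1)
      _ = ⊥ := inf_compl_eq_bot
      _ ≤ ⊥ := le_rfl
  · calc lst rel l η ⊓ lst rel l η' ≤ (El l η')ᶜ ⊓ El l η' :=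
          inf_le_inf (lst_le_compl h1) inf_le_left
      _ = ⊥ := compl_inf_eq_bot
      _ ≤ ⊥ := le_rfl

theorem lst_top (hwf : WellFounded rel) (l : List (Tb B)) : (⨆ η, lst rel l η) = ⊤ := by
  have h : ∀ η, El l η ≤ ⨆ η, lst rel l η := by
    intro η
    induction η using hwf.induction with
    | _ η ih =>
      have h1 : El l η = lst rel l η ⊔ (El l η ⊓ ⨆ η' : {η' // rel η' η}, El l η'.1) := by
        unfold lst
        rw [← inf_sup_left, sup_comm, sup_compl_eq_top, inf_top_eq]
      rw [h1]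
      refine sup_le (le_iSup (lst rel l) η) (inf_le_right.trans (iSup_le fun η' => ih _ η'.2))
  rw [eq_top_iff, ← El_refl l]
  exact h l

theorem lst_congr (l l' η : List (Tb B)) : El l l' ⊓ lst rel l η ≤ lst rel l' η := by
  unfold lst
  refine le_inf ?_ ?_
  · rw [El_symm l l']
    exact le_trans (le_inf inf_le_left (inf_le_right.trans inf_le_left)) (El_trans l' l η)
  · rw [le_compl_iff_disjoint_right, disjoint_iff, inf_iSup_eq, iSup_eq_bot]
    intro η'
    rw [eq_bot_iff, ← inf_compl_eq_bot (a := ⨆ η' : {η' // rel η' η}, El l η'.1)]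
    refine le_inf ?_ ((inf_le_left.trans inf_le_right).trans inf_le_right)
    refine le_trans ?_ (le_iSup (fun η' : {η' // rel η' η} => El l η'.1) η')
    exact le_trans (le_inf (inf_le_left.trans inf_le_left) inf_le_right) (El_trans l l' η'.1)

end Alg

/-- a well-order which refines the rank -/
theorem exists_order {H L : Type} [LinearOrder L] [WellFoundedLT L] (rk : H → L) :
    ∃ rel : H → H → Prop, WellFounded rel ∧ (∀ a b, a ≠ b → rel a b ∨ rel b a) ∧
      ∀ a b, rk a < rk b → rel a b := by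
  refine ⟨InvImage (Prod.Lex (· < ·) WellOrderingRel) (fun a => (rk a, a)), ?_, ?_, ?_⟩
  · exact InvImage.wf _ (WellFounded.prod_lex wellFounded_lt (WellOrderingRel.isWellOrder).wf)
  · intro a b hab
    rcases lt_trichotomy (rk a) (rk b) with h | h | h
    · exact Or.inl (Prod.Lex.left _ _ h)
    · have hw : IsWellOrder H WellOrderingRel := WellOrderingRel.isWellOrder
      rcases trichotomous_of (WellOrderingRel (α := H)) a b with h1 | h1 | h1
      · left
        show Prod.Lex _ _ (rk a, a) (rk b, b)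
        rw [h]
        exact Prod.Lex.right _ h1
      · exact absurd h1 hab
      · right
        show Prod.Lex _ _ (rk b, b) (rk a, a)
        rw [h]
        exact Prod.Lex.right _ h1
    · exact Or.inr (Prod.Lex.left _ _ h)
  · intro a b h
    exact Prod.Lex.left _ _ h

section Main

variable {X : Type} {B : Type} [CompleteBooleanAlgebra B] {e : Cd X → B}

theorem det (he : DenseEmb (Cd X) B e) {L : Type} [LinearOrder L] [WellFoundedLT L]
    (sp : Tb B → Set X) (hsp : ∀ v x a, Su e (sp v) (v x a)) (s : (ℕ → ℕ) → (ℕ → ℕ) → B)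
    (s0 : Set X) (hs0 : ∀ x y, Su e s0 (s x y)) (rk : List (Tb B) → L) (i : List (Tb B) → X)
    (hi : Function.Injective i) (hi0 : ∀ η, i η ∉ s0) (htake : ∀ η n, rk (η.take n) ≤ rk η)
    (hisp : ∀ η η', rk η ≤ rk η' → ∀ v ∈ η, i η' ∉ sp v) :
    ∃ Sg : (ℕ → R → ℕ → B) → (ℕ → R → ℕ → B),
    (∀ φ, IsT φ → IsT (Sg φ)) ∧
    (∀ φ φ', IsT φ → IsT φ' → ∀ n x a, Eqv n φ φ' ⊓ Sg φ n x a ≤ Sg φ' n x a) ∧
    ∀ φ, IsT φ → (⨅ x, ⨅ u, ⨅ v, (Rn φ (Sg φ) x u v ⊓ s u v)ᶜ) ≤
      ⨆ t : List ℕ → ℕ, ⨅ u : ℕ → ℕ, (s u (fun n => t (List.ofFn (fun i : Fin (n + 1) => u i))))ᶜ := by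
  obtain ⟨rel, hwf, htri, hrk⟩ := exists_order rk
  refine ⟨fun φ n x a => ⨆ η, lst rel (lp φ n) η ⊓ gen e (i η) x a, ?_, ?_, ?_⟩
  · intro φ _ n x
    constructor
    · intro a b hab
      rw [iSup_inf_iSup, iSup_eq_bot]
      rintro ⟨η, η'⟩
      rw [eq_bot_iff]
      by_cases h : η = η'
      · subst h
        rw [← (pt_gen he (i η) x).2 a b hab]
        exact inf_le_inf inf_le_right inf_le_right
      · rw [← lst_disj htri (lp φ n) h]
        exact inf_le_inf inf_le_left inf_le_left
    · rw [iSup_comm]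
      simp_rw [← inf_iSup_eq, (pt_gen he _ x).1, inf_top_eq]
      exact lst_top hwf _
  · intro φ φ' _ _ n x a
    rw [inf_iSup_eq]
    refine iSup_mono fun η => ?_
    refine le_inf ?_ (inf_le_right.trans inf_le_right)
    exact le_trans (inf_le_inf (El_lp φ φ' n) inf_le_left) (lst_congr _ _ _)
  · intro φ hφ
    refine le_of_dense he fun q hq => ?_
    obtain ⟨r0, hr0, h1⟩ := (sClosed X).dense (p := q)
      (fun n r => ∃ η, e r ≤ lst rel (lp φ n) η)
      (fun n q' r' hr' h => h.imp fun η hη => (he.mono _ _ hr').trans hη)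
      (fun n q' _ => he.exists_le_of_le_iSup (by rw [lst_top hwf]; exact le_top))
    choose η hη using h1
    have hE : ∀ n, e r0 ≤ El (lp φ n) (η n) := fun n => (hη n).trans inf_le_left
    have hne : ¬ e r0 ≤ ⊥ := fun h => he.ne_bot r0 (le_bot_iff.1 h)
    have hlen : ∀ n, (η n).length = n := by
      intro n
      by_contra hcon
      apply hne
      have h2 := hE n
      unfold El at h2
      rw [if_neg (by rw [length_lp]; exact Ne.symm hcon)] at h2
      exact h2
    have hrkm : ∀ n m, n ≤ m → rk (η n) ≤ rk (η m) := by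
      intro n m hnm
      refine le_trans ?_ (htake (η m) n)
      by_contra hcon
      rw [not_le] at hcon
      have h2 := (hη n).trans (lst_le_compl (hrk _ _ hcon))
      have h3 := (hE m).trans (El_take _ _ n)
      rw [lp_take φ hnm] at h3
      exact hne ((le_inf h3 h2).trans inf_compl_eq_bot.le)
    have hinj : Function.Injective fun m => i (η m) := by
      intro m m' h
      rw [← hlen m, ← hlen m', hi h]
    obtain ⟨b, hb⟩ : ∃ b : R, ∀ m, r0.1 (i (η m), b) = none := by
      by_contra hcon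
      push Not at hcon
      have h2 : (Set.univ : Set R) ⊆ (fun z : X × R => z.2) '' {z | r0.1 z ≠ none} := by
        intro b _
        obtain ⟨m, hm⟩ := hcon b
        exact ⟨(i (η m), b), hm, rfl⟩
      have h3 := (r0.2.image (fun z : X × R => z.2)).mono h2
      have h4 : #(ℕ → Bool) ≤ ℵ₀ := by
        rw [← Cardinal.mk_univ]
        exact Cardinal.le_aleph0_iff_set_countable.2 h3
      have h5 : #(ℕ → Bool) = continuum := by simp
      rw [h5] at h4
      exact absurd h4 (not_le.2 Cardinal.aleph0_lt_continuum)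
    have hmem : ∀ j, ∃ v ∈ η (j + 1), tp (η (j + 1)) j = v := by
      intro j
      have hj : j < (η (j + 1)).length := by rw [hlen]; omega
      exact ⟨(η (j + 1))[j], List.getElem_mem hj, List.getD_eq_getElem _ _ hj⟩
    have hγ2 : ∀ j k, e r0 ≤ bi (φ j b k) (tp (η (j + 1)) j b k) := by
      intro j k
      have h2 := hE (j + 1)
      unfold El at h2
      rw [if_pos (by rw [length_lp, hlen]), length_lp, le_eqv] at h2
      have h3 := h2 j (by omega) b k
      rwa [tp_lp φ (by omega)] at h3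
    have hbot : ∀ q' ≤ r0, ∀ c : B, e q' ≤ c → e q' ≤ cᶜ → False := by
      intro q' _ c h2 h3
      exact he.ne_bot q' (le_bot_iff.1 ((le_inf h2 h3).trans inf_compl_eq_bot.le))
    obtain ⟨r, hr, τ, hτ⟩ : ∃ r, r ≤ r0 ∧ ∃ τ : List ℕ → ℕ, ∀ x, e r ≤ (s x (ans τ x))ᶜ := by
      refine core he hinj b r0 hb s ?_ (fun j k => tp (η (j + 1)) j b k) ?_ ?_ ?_ r0 le_rfl
      · intro x y
        refine (hs0 x y).mono he ?_
        rintro z hz ⟨m, rfl⟩
        exact hi0 _ hz
      · intro j
        have h2 : e r0 ≤ e r0 ⊓ ⨆ k, φ j b k := by rw [(hφ j b).2, inf_top_eq]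
        refine h2.trans ?_
        rw [inf_iSup_eq]
        refine iSup_mono fun k => ?_
        exact (le_bi.1 (hγ2 j k)).1
      · intro j k
        obtain ⟨v, hv, hv2⟩ := hmem j
        rw [hv2]
        refine (hsp v b k).mono he ?_
        intro z hz m hm
        rintro rfl
        exact hisp (η (j + 1)) (η m) (hrkm _ _ hm) v hv hz
      · intro q' hq' x y hx hy hs
        refine hbot q' hq' (Rn φ (fun n x a => ⨆ η, lst rel (lp φ n) η ⊓ gen e (i η) x a) b x y ⊓
          s x y) ?_ ?_
        · refine le_inf (le_iInf fun m => le_inf ?_ ?_) hs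
          · refine le_iSup_of_le (η m) (le_inf ((he.mono _ _ hq').trans (hη m)) ?_)
            exact le_gen (hx m)
          · have h2 := (le_bi.1 (hγ2 m (y m))).2
            exact (le_inf (he.mono _ _ hq') (hy m)).trans h2
        · refine ((he.mono _ _ (hq'.trans hr0)).trans hq).trans ?_
          exact iInf_le_of_le b (iInf_le_of_le x (iInf_le _ y))
    exact ⟨r, hr.trans hr0, le_iSup_of_le τ (le_iInf fun x => hτ x)⟩

end Main

theorem mk_R : #R = continuum := by simp [R]

theorem two_power_continuum : ((2 : Cardinal.{0}) ^ continuum) ^ (continuum : Cardinal.{0}) =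
    2 ^ continuum := by
  rw [← Cardinal.power_mul, Cardinal.continuum_mul_self]

/-- a family of at most `c` elements has a support of size at most `c` -/
theorem exists_su_fam {X : Type} {B : Type} [CompleteBooleanAlgebra B] {e : Cd X → B}
    (he : DenseEmb (Cd X) B e) {J : Type} (hJ : #J ≤ continuum) (f : J → B) :
    ∃ S : Set X, #S ≤ continuum ∧ ∀ j, Su e S (f j) := by
  choose S hS1 hS2 using fun j => exists_su he (f j)
  refine ⟨⋃ j, S j, ?_, fun j => (hS2 j).mono he (Set.subset_iUnion S j)⟩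
  refine (Cardinal.mk_iUnion_le S).trans ?_
  calc #J * ⨆ j, #(S j) ≤ continuum * continuum :=
        mul_le_mul' hJ (ciSup_le' hS1)
    _ = continuum := Cardinal.continuum_mul_self

theorem exists_ctr : ∃ (B : Type) (_ : CompleteBooleanAlgebra B) (P : Type) (_ : Preorder P)
    (e : P → B), Nonempty P ∧ Ctr P B e := by
  obtain ⟨B, iB, e, he⟩ := exists_denseEmb (Cd (Set R))
  have hX : #(Set R) = 2 ^ continuum := by rw [Cardinal.mk_set, mk_R]
  have hcc : continuum < #(Set R) := by rw [hX]; exact Cardinal.cantor _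
  have hB : #B ≤ 2 ^ continuum :=
    card_le he hX.le (Cardinal.aleph0_le_continuum.trans (Cardinal.cantor _).le) two_power_continuum
  have hT : #(Tb B) ≤ #(Set R) := by
    rw [hX]
    have h1 : #(Tb B) = #B ^ (ℵ₀ * continuum) := by
      show #(R → ℕ → B) = _
      rw [← Cardinal.power_def, ← Cardinal.power_def, Cardinal.mk_nat, mk_R, ← Cardinal.power_mul]
    rw [h1, Cardinal.aleph0_mul_continuum]
    calc #B ^ (continuum : Cardinal.{0}) ≤ (2 ^ continuum) ^ (continuum : Cardinal.{0}) :=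
          Cardinal.power_le_power_right hB
      _ = 2 ^ continuum := two_power_continuum
  have hRN : #(R × ℕ) ≤ continuum := by
    rw [Cardinal.mk_prod, Cardinal.lift_id, Cardinal.lift_id, mk_R, Cardinal.mk_nat,
      Cardinal.continuum_mul_aleph0]
  have hNN : #((ℕ → ℕ) × (ℕ → ℕ)) ≤ continuum := by
    simp
  choose sp hsp1 hsp2 using fun v : Tb B => exists_su_fam he hRN fun z => v z.1 z.2
  refine ⟨B, iB, Cd (Set R), inferInstance, e, ⟨emp _⟩, he, sClosed _, fun s => ?_⟩
  obtain ⟨s0, hs01, hs02⟩ := exists_su_fam he hNN fun z => s z.1 z.2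
  obtain ⟨L, iL, iL2, rk, i, hi, hi0, htake, hisp⟩ := exists_idx hcc hT sp hsp1 s0 hs01
  exact det he sp (fun v x a => hsp2 v (x, a)) s s0 (fun x y => hs02 (x, y)) rk i hi hi0 htake hisp

end MD
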