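import Pool.Agent.H92.CN.Sc

/-!
# POS: countable partial functions from `X × R` to `ℕ`
-/

set_option autoImplicit false

namespace MD

open BV PK HM PM CN

/-- the boards -/
abbrev R : Type := ℕ → Bool

/-- countable partial functions from `X × R` to `ℕ` -/
def Cd (X : Type) : Type := {f : X × R → Option ℕ // {z | f z ≠ none}.Countable}

variable {X : Type}

instance : Preorder (Cd X) where
  le q p := ∀ z k, p.1 z = some k → q.1 z = some k
  le_refl _ _ _ h := h
  le_trans _ _ _ h h' z k hz := h z k (h' z k hz)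

theorem Cd.le_def {q p : Cd X} : q ≤ p ↔ ∀ z k, p.1 z = some k → q.1 z = some k := Iff.rfl

/-- the empty condition -/
def emp (X : Type) : Cd X := ⟨fun _ => none, by simp⟩

open Classical in
/-- the restriction of the condition `p` to the set `S` of coordinates -/
noncomputable def rc (S : Set (X × R)) (p : Cd X) : Cd X :=
  ⟨fun z => if z ∈ S then p.1 z else none, by
    refine p.2.mono ?_
    intro z hz
    simp only [Set.mem_ofPred_eq] at hz ⊢
    by_cases h : z ∈ S
    · rwa [if_pos h] at hz
    · rw [if_neg h] at hz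
      exact absurd rfl hz⟩

theorem rc_some {S : Set (X × R)} {p : Cd X} {z : X × R} {b : ℕ} :
    (rc S p).1 z = some b ↔ z ∈ S ∧ p.1 z = some b := by
  unfold rc
  by_cases h : z ∈ S
  · simp [h]
  · simp [h]

theorem rc_none {S : Set (X × R)} {p : Cd X} {z : X × R} (h : z ∉ S) : (rc S p).1 z = none := by
  unfold rc
  simp [h]

theorem le_rc (S : Set (X × R)) (p : Cd X) : p ≤ rc S p := fun _ _ h => (rc_some.1 h).2

theorem rc_mono (S : Set (X × R)) {p q : Cd X} (h : p ≤ q) : rc S p ≤ rc S q := by
  intro z b hz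
  rw [rc_some] at hz ⊢
  exact ⟨hz.1, h _ _ hz.2⟩

theorem rc_anti {S S' : Set (X × R)} (h : S ⊆ S') (p : Cd X) : rc S' p ≤ rc S p := by
  intro z b hz
  rw [rc_some] at hz ⊢
  exact ⟨h hz.1, hz.2⟩

open Classical in
/-- first `p`, then `q` -/
noncomputable def glue (p q : Cd X) : Cd X :=
  ⟨fun z => if p.1 z = none then q.1 z else p.1 z, by
    refine (p.2.union q.2).mono ?_
    intro z hz
    simp only [Set.mem_ofPred_eq] at hz
    by_cases h : p.1 z = none
    · right
      rwa [if_pos h] at hz
    · exact Or.inl h⟩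

theorem glue_le_left (p q : Cd X) : glue p q ≤ p := by
  intro z b hz
  show (if p.1 z = none then q.1 z else p.1 z) = some b
  rw [if_neg (by rw [hz]; simp), hz]

theorem glue_le_right {p q : Cd X} (h : ∀ z b b', p.1 z = some b → q.1 z = some b' → b = b') :
    glue p q ≤ q := by
  intro z b hz
  show (if p.1 z = none then q.1 z else p.1 z) = some b
  by_cases h1 : p.1 z = none
  · rw [if_pos h1, hz]
  · rw [if_neg h1]
    obtain ⟨c, hc⟩ := Option.ne_none_iff_exists'.mp h1
    rw [hc, h z c b hc hz]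

theorem glue_some {p q : Cd X} {z : X × R} {b : ℕ} (h : (glue p q).1 z = some b) :
    p.1 z = some b ∨ (p.1 z = none ∧ q.1 z = some b) := by
  change (if p.1 z = none then q.1 z else p.1 z) = some b at h
  by_cases h1 : p.1 z = none
  · rw [if_pos h1] at h
    exact Or.inr ⟨h1, h⟩
  · rw [if_neg h1] at h
    exact Or.inl h

theorem glue_none {p q : Cd X} {z : X × R} (h : p.1 z = none) (h' : q.1 z = none) :
    (glue p q).1 z = none := by
  show (if p.1 z = none then q.1 z else p.1 z) = none
  rw [if_pos h, h']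

/-- the partial function on the coordinates `c n` with the values `x n` (`c` injective) -/
theorem exists_on {c : ℕ → X × R} (hc : Function.Injective c) (x : ℕ → ℕ) :
    ∃ p : Cd X, (∀ n, p.1 (c n) = some (x n)) ∧ ∀ z, z ∉ Set.range c → p.1 z = none := by
  classical
  refine ⟨⟨fun z => if h : ∃ n, c n = z then some (x h.choose) else none, ?_⟩, ?_, ?_⟩
  · refine (Set.countable_range c).mono ?_
    intro z hz
    simp only [Set.mem_ofPred_eq] at hz
    by_cases h : ∃ n, c n = z
    · exact h
    · rw [dif_neg h] at hz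
      exact absurd rfl hz
  · intro n
    have h : ∃ m, c m = c n := ⟨n, rfl⟩
    show (if h : ∃ m, c m = c n then some (x h.choose) else none) = _
    rw [dif_pos h, hc h.choose_spec]
  · intro z hz
    show (if h : ∃ m, c m = z then some (x h.choose) else none) = _
    rw [dif_neg (fun h => hz (Set.mem_range.2 h))]

theorem sClosed (X : Type) : SClosed (Cd X) := by
  classical
  intro s hs
  have hanti : ∀ m n, m ≤ n → s n ≤ s m := by
    intro m n hmn
    induction n, hmn using Nat.le_induction with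
    | base => exact le_rfl
    | succ n _ ih => exact (hs n).trans ih
  refine ⟨⟨fun z => if h : ∃ n, (s n).1 z ≠ none then (s (Nat.find h)).1 z else none, ?_⟩, ?_⟩
  · refine (Set.countable_iUnion fun n => (s n).2).mono ?_
    intro z hz
    simp only [Set.mem_ofPred_eq] at hz
    by_cases h : ∃ n, (s n).1 z ≠ none
    · obtain ⟨n, hn⟩ := h
      exact Set.mem_iUnion.2 ⟨n, hn⟩
    · rw [dif_neg h] at hz
      exact absurd rfl hz
  · intro n z k hk
    have h : ∃ n, (s n).1 z ≠ none := ⟨n, by rw [hk]; simp⟩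
    show (if h : ∃ n, (s n).1 z ≠ none then (s (Nat.find h)).1 z else none) = _
    rw [dif_pos h]
    obtain ⟨c, hc⟩ := Option.ne_none_iff_exists'.mp (Nat.find_spec h)
    have h1 := hanti _ n (Nat.find_min' h (show (s n).1 z ≠ none by rw [hk]; simp)) z c hc
    rw [hk] at h1
    rw [hc, h1]

variable {B : Type} [CompleteBooleanAlgebra B] {e : Cd X → B}

/-- the rows in `S` -/
def rows (S : Set X) : Set (X × R) := {z | z.1 ∈ S}

/-- the rows in `S` support `b` -/
def Su (e : Cd X → B) (S : Set X) (b : B) : Prop := ∀ p, e p ≤ b → e (rc (rows S) p) ≤ b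

theorem le_compl_iff (he : DenseEmb (Cd X) B e) {p : Cd X} {b : B} :
    e p ≤ bᶜ ↔ ∀ q ≤ p, ¬ e q ≤ b := by
  constructor
  · intro h q hq hb
    apply he.ne_bot q
    rw [← le_bot_iff, ← inf_compl_eq_bot (a := b)]
    exact le_inf hb ((he.mono _ _ hq).trans h)
  · intro h
    rw [le_compl_iff_disjoint_right, disjoint_iff]
    by_contra hne
    obtain ⟨q, hq, hqb⟩ := he.exists_le_of_inf_ne_bot hne
    exact h q hq hqb

theorem not_le_iff (he : DenseEmb (Cd X) B e) {p : Cd X} {b : B} :
    ¬ e p ≤ b ↔ ∃ q ≤ p, e q ≤ bᶜ := by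
  have h := le_compl_iff he (p := p) (b := bᶜ)
  rw [compl_compl] at h
  rw [h]
  push Not
  rfl

theorem Su.compl (he : DenseEmb (Cd X) B e) {S : Set X} {b : B} (h : Su e S b) : Su e S bᶜ := by
  intro p hp
  rw [le_compl_iff he]
  intro r hr hrb
  have h1 := h r hrb
  have h2 : glue p (rc (rows S) r) ≤ rc (rows S) r := by
    refine glue_le_right ?_
    intro z b1 b2 hz1 hz2
    rw [rc_some] at hz2
    have h3 := hr z b1 (rc_some.2 ⟨hz2.1, hz1⟩)
    rw [h3] at hz2
    exact Option.some.inj hz2.2
  exact (le_compl_iff he).1 hp _ (glue_le_left _ _) ((he.mono _ _ h2).trans h1)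

theorem Su.mono (he : DenseEmb (Cd X) B e) {S S' : Set X} (hS : S ⊆ S') {b : B}
    (h : Su e S b) : Su e S' b := by
  intro p hp
  exact (he.mono _ _ (rc_anti (fun z hz => hS hz) p)).trans (h p hp)

/-- Boolean value of: the generic function of row `i` has the value `k` at `r` -/
noncomputable def gen (e : Cd X → B) (i : X) (r : R) (k : ℕ) : B :=
  ⨆ p : {p : Cd X // p.1 (i, r) = some k}, e p.1

theorem le_gen {p : Cd X} {i : X} {r : R} {k : ℕ} (h : p.1 (i, r) = some k) :
    e p ≤ gen e i r k :=
  le_iSup (fun p : {p : Cd X // p.1 (i, r) = some k} => e p.1) ⟨p, h⟩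

/-- a coordinate can be added -/
theorem exists_add (p : Cd X) (z : X × R) (k : ℕ) (hz : p.1 z = none) :
    ∃ q, q ≤ p ∧ q.1 z = some k := by
  classical
  refine ⟨⟨Function.update p.1 z (some k), ?_⟩, ?_, ?_⟩
  · refine (p.2.insert z).mono ?_
    intro y hy
    by_cases h : y = z
    · exact Or.inl h
    · right
      simp only [Set.mem_ofPred_eq] at hy ⊢
      rwa [Function.update_of_ne h] at hy
  · intro y b hy
    by_cases h : y = z
    · rw [h, hz] at hy
      exact absurd hy (by simp)
    · show Function.update p.1 z (some k) y = some b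
      rw [Function.update_of_ne h, hy]
  · exact Function.update_self _ _ _

theorem exists_dec (p : Cd X) (z : X × R) : ∃ q, q ≤ p ∧ ∃ k, q.1 z = some k := by
  by_cases h : p.1 z = none
  · obtain ⟨q, hq, hk⟩ := exists_add p z 0 h
    exact ⟨q, hq, 0, hk⟩
  · obtain ⟨c, hc⟩ := Option.ne_none_iff_exists'.mp h
    exact ⟨p, le_rfl, c, hc⟩

theorem pt_gen (he : DenseEmb (Cd X) B e) (i : X) (r : R) :
    (⨆ k, gen e i r k) = ⊤ ∧ ∀ k l, k ≠ l → gen e i r k ⊓ gen e i r l = ⊥ := by
  constructor
  · refine eq_top_iff.2 (le_of_dense he fun q _ => ?_)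
    obtain ⟨q', hq', k, hk⟩ := exists_dec q (i, r)
    exact ⟨q', hq', (le_gen hk).trans (le_iSup _ k)⟩
  · intro k l hkl
    unfold gen
    rw [iSup_inf_iSup]
    refine iSup_eq_bot.2 fun z => ?_
    by_contra hne
    obtain ⟨s, hs1, hs2⟩ := he.compat _ _ hne
    have h1 := hs1 _ _ z.1.2
    have h2 := hs2 _ _ z.2.2
    rw [h1] at h2
    exact hkl (Option.some.inj h2)

end MD
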